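import Pool.Agent.E8helper75.QI.Bas
import Pool.Agent.E8helper75.QK.Stm

/-!
The statements of the pieces for the curves `y² = x³ + i D x` over `ℚ(i)`, `D = ∏ l`, `l ∈ S`, a product of
distinct primary primes. Each `S_X` is a statement; its proof is `t_X` in the file of the seat that does it.
-/

set_option autoImplicit false
set_option linter.unusedSectionVars false

open Filter Complex NumberField IsDedekindDomain
open scoped Topology PeriodPair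
open H667R3 hiding sq
open Pool.Agent.TH936.CM Pool.Agent.W192.HK

namespace Pool.Agent.E8helper75.QI

open Pool.Agent.Y699 (GLat OT Cg RS PF PP DD c4 on1 wt em pi1 dz LG plc)
open Pool.Agent.E8helper21.Q2
open H385 (ZI RQ im1 nrm)
open Pool.Agent.H304R3.HK (tc HC LH)
open Pool.Agent.W164.RC (two2)
open Pool.Agent.H304R2.EC.A1 (prim)
open Pool.Agent.Y697.MQ (OP gA gθ)
open Pool.Agent.Y697.PP (Mt)
open Pool.Agent.Y715.Z (em0)
open Pool.Agent.Y682 (vv IsT)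
open Pool.Agent.Y696 (NonsingRed)

/-- the coefficient `i D` -/
def BI (S : Finset GaussianInt) : GaussianInt := im1 * ∏ l ∈ S, l

/-! ### the places -/

/-- MINI: the equation is minimal -/
def S_MINI : Prop := ∀ (K : Type) [Field K] [NumberField K] (e : ZI ≃+* 𝓞 K)
  (S : Finset GaussianInt), (∀ l ∈ S, OP l) → ∀ v : HeightOneSpectrum (𝓞 K),
  WeierstrassCurve.IsMinimal (v.adicCompletionIntegers K)
    (Pool.Agent.Y715.Z.q4 (algebraMap K (v.adicCompletion K) (em0 e (BI S))))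

open Classical in
/-- the Tamagawa numbers -/
noncomputable def cI {K : Type} [Field K] [NumberField K] (e : ZI ≃+* 𝓞 K) (S : Finset GaussianInt)
    (v : HeightOneSpectrum (𝓞 K)) : ℕ := if e (∏ l ∈ S, l) ∈ v.asIdeal then 2 else 1

open scoped Classical in
/-- TAMI: the Tamagawa numbers -/
def S_TAMI : Prop := ∀ (K : Type) [Field K] [NumberField K] (e : ZI ≃+* 𝓞 K)
  (S : Finset GaussianInt), (∀ l ∈ S, OP l) → ∀ v : HeightOneSpectrum (𝓞 K),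
  ∃ H : AddSubgroup
      (Pool.Agent.Y715.Z.q4 (algebraMap K (v.adicCompletion K) (em0 e (BI S)))).toAffine.Point,
    (∀ P, P ∈ H ↔ NonsingRed (vv v)
      (Pool.Agent.Y715.Z.q4 (algebraMap K (v.adicCompletion K) (em0 e (BI S)))) P) ∧
    H.index = cI e S v

/-- TAPI: their product -/
def S_TAPI : Prop := ∀ (K : Type) [Field K] [NumberField K] (e : ZI ≃+* 𝓞 K)
  (S : Finset GaussianInt), (∀ l ∈ S, OP l) →
  {v : HeightOneSpectrum (𝓞 K) | cI e S v ≠ 1}.Finite ∧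
    ∏ᶠ v : HeightOneSpectrum (𝓞 K), cI e S v = 2 ^ S.card

/-- TORI: the order of the torsion subgroup is twice an odd number -/
def S_TORI : Prop := ∀ (K : Type) [Field K] [NumberField K] [DecidableEq K] (e : ZI ≃+* 𝓞 K)
  (S : Finset GaussianInt), (∀ l ∈ S, OP l) → ∃ t : ℕ, Odd t ∧
    Nat.card (AddCommGroup.torsion
      (Pool.Agent.Y715.Z.q4 (em0 e (BI S)) : WeierstrassCurve K).toAffine.Point) = 2 * t

/-! ### the descent -/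

/-- SHAI: the descent -/
def S_SHAI : Prop := ∀ (K : Type) [Field K] [NumberField K] (e : ZI ≃+* 𝓞 K)
  (S : Finset GaussianInt), (∀ l ∈ S, OP l) →
  (∀ t : GaussianInt → ZMod 2, (∀ v ∈ S, gθ v * t v + ∑ u ∈ S, gA v u * (t v + t u) = 0) →
    ∀ v ∈ S, t v = 0) →
  ∀ W : WeierstrassCurve K, IsT W 0 (em0 e (BI S)) →
    Module.finrank ℤ (Pool.Agent.Y682.MP W) = 0 ∧
      ∀ x : Pool.Agent.TH841.NF.D.Sha W, 2 • x = 0 → x = 0

/-- CNVI: the converse -/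
def S_CNVI : Prop := ∀ (K : Type) [Field K] [NumberField K] (e : ZI ≃+* 𝓞 K)
  (S : Finset GaussianInt), (∀ l ∈ S, OP l) → (Mt gA gθ S).det = 0 →
  Finite (Pool.Agent.Y715.Z.q4 (em0 e (BI S)) : WeierstrassCurve K).toAffine.Point →
  (∀ x : Pool.Agent.TH841.NF.D.Sha (Pool.Agent.Y715.Z.q4 (em0 e (BI S)) : WeierstrassCurve K),
    2 • x = 0 → x = 0) → False

/-! ### the L-series -/

/-- LSI: the L-series -/
def S_LSI : Prop := ∀ (K : Type) [Field K] [NumberField K] (e : ZI ≃+* 𝓞 K)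
  (S : Finset GaussianInt), (∀ l ∈ S, OP l) → ∀ (c : ZI) (X : ZI →* ℂ), HC c X → X pi1 = 0 →
  (∀ z : ZI, PP z → z ∣ ∏ l ∈ S, l → X z = 0) →
  (∀ z : ZI, PP z → ¬ z ∣ ∏ l ∈ S, l →
    X z = (starRingEnd ℂ) (tc (Pool.Agent.Y699.q4 z (-BI S)))) →
  ∀ s : ℂ, 3 / 2 < s.re →
    LSeriesSummable ((fun n : ℤ => (n : ℂ)) ∘
      (Pool.Agent.Y715.Z.q4 (em0 e (BI S)) : WeierstrassCurve K).LFunction) s ∧
    LG X s = (Pool.Agent.Y715.Z.q4 (em0 e (BI S)) : WeierstrassCurve K).LSeries s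

/-- VALZI: the valuation of the predicted order of Sha -/
def S_VALZI : Prop := ∀ (Γ : Type) [LinearOrderedCommGroupWithZero Γ] (v : Valuation ℂ Γ), v 2 < 1 →
  ∀ (L : PeriodPair) (Ω : ℂ), GLat L Ω → ∀ m : ℂ, m ^ 8 = -16 → ∀ (n : ℕ) (M : ℂ) (c : Prop),
  (∀ w : Valuation ℂ Γ, w 2 < 1 → w (M / (Ω / tc two2 * m * (1 + I) ^ n)) ≤ 1 ∧
    (w (M / (Ω / tc two2 * m * (1 + I) ^ n)) = 1 ↔ c)) →
  ∀ D : ZI, D.norm % 2 = 1 → ∀ δ : ℂ, ‖δ‖ = ‖tc D‖ → ∀ Λ : PeriodPair, Λ.g₂ = -4 * δ →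
  Λ.g₃ = 0 → ∀ t : ℕ, Odd t →
    v (M * (starRingEnd ℂ) M * 2 * ((2 * t : ℕ) : ℂ) ^ 2 /
      (((2 * |((starRingEnd ℂ) Λ.ω₁ * Λ.ω₂).im| : ℝ) : ℂ) * ((2 ^ n : ℕ) : ℂ))) ≤ 1 ∧
    (v (M * (starRingEnd ℂ) M * 2 * ((2 * t : ℕ) : ℂ) ^ 2 /
      (((2 * |((starRingEnd ℂ) Λ.ω₁ * Λ.ω₂).im| : ℝ) : ℂ) * ((2 ^ n : ℕ) : ℂ))) = 1 ↔ c)

/-! ### the functions -/

/-- BSI: the values at the division point -/
def S_BSI : Prop := ∀ (L : PeriodPair) (Ω : ℂ), GLat L Ω →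
  K3 L Ω (dz Ω) ^ 8 = -16 ∧ K1 L Ω (dz Ω) ^ 8 = -16

/-- VALI: the valuations at the points of odd order -/
def S_VALI : Prop := ∀ (L : PeriodPair) (Ω : ℂ), GLat L Ω →
  ∀ (Γ : Type) [LinearOrderedCommGroupWithZero Γ] (v : Valuation ℂ Γ), v 2 < 1 →
  ∀ m : ℂ, m ^ 8 = -16 → ∀ P : ℂ, OT L P →
    (v ((K3 L Ω (dz Ω + P) + K3 L Ω (dz Ω - P)) / m) < 1 ∧ v ((1 + I) * K3 L Ω (dz Ω - P) / m) < 1) ∧
    (v ((K1 L Ω (dz Ω + P) + K1 L Ω (dz Ω - P)) / m) < 1 ∧ v ((1 + I) * K1 L Ω (dz Ω - P) / m) < 1)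

/-- LKI: the limits -/
def S_LKI : Prop := ∀ (L : PeriodPair) (Ω : ℂ), GLat L Ω → ∀ z : ℂ, z ∉ L.lattice →
  Tendsto (fun δ : ℝ => ∑' b : ZI, tI (im1 * b) * fd δ (z + Ω * tc b)) (𝓝[>] 0) (𝓝 (K3 L Ω z)) ∧
  Tendsto (fun δ : ℝ => ∑' b : ZI, tI (-(im1 * b)) * fd δ (z + Ω * tc b)) (𝓝[>] 0)
    (𝓝 (K1 L Ω z))

/-! ### the Hecke characters -/

/-- HCT -/
def S_HCT : Prop := ∀ (θ : ZI → ZI) (H : TH θ) (ι : Type) [DecidableEq ι] (pr : ι → ZI) (hp : PF pr)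
  (V : Finset ι), HC (cn8 pr V) (XT H hp V)

/-- LHT -/
def S_LHT : Prop := ∀ (θ : ZI → ZI) (H : TH θ) (ι : Type) [DecidableEq ι] (pr : ι → ZI) (hp : PF pr)
  (V : Finset ι) (l : ℂ),
  Tendsto (RS (cT θ pr V)) (𝓝[>] 0) (𝓝 l) → LH (XT H hp V) (1 / 2) = (starRingEnd ℂ) l

/-- CHI: the values of the two characters -/
def S_CHI : Prop := ∀ (ι : Type) [DecidableEq ι] (pr : ι → ZI) (hp : PF pr) (V : Finset ι),
  (∀ z : ZI, PP z → z ∣ DD pr V → XT th_x3 hp V z = 0 ∧ XT th_x1 hp V z = 0) ∧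
  (∀ z : ZI, PP z → ¬ z ∣ DD pr V →
    (∑ i ∈ V, wt pr i = 0 →
      XT th_x3 hp V z = (starRingEnd ℂ) (tc (Pool.Agent.Y699.q4 z (-(im1 * DD pr V))))) ∧
    (∑ i ∈ V, wt pr i = 1 →
      XT th_x1 hp V z = (starRingEnd ℂ) (tc (Pool.Agent.Y699.q4 z (-(im1 * DD pr V))))))

end Pool.Agent.E8helper75.QI
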