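import Pool.Agent.E8helper75.QI.Rec
import Pool.Agent.E8helper75.QI.Stm
import Pool.Agent.E8helper75.QK.Anx

/-!
The analytic input: the Hecke character, its central value and the criterion.
-/

set_option autoImplicit false
set_option linter.unusedSectionVars false

open Filter Complex
open scoped Topology PeriodPair
open H667R3 hiding sq
open Pool.Agent.TH936.CM Pool.Agent.W192.HK

namespace Pool.Agent.E8helper75.QI

open Pool.Agent.Y699
open Pool.Agent.E8helper21.Q2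
open H385 (ZI RQ im1 nrm)
open Pool.Agent.H304R3.HK (tc HC LH)
open Pool.Agent.W164.RC (tc_mul tc_star two2 prim_iff_dvd unit_norm unit_cases)
open Pool.Agent.Y697.MQ (OP gA gθ)
open Pool.Agent.Y697.PP (Mt)
open Pool.Agent.R428.G (toPP)
open Pool.Agent.E8helper75.QK (cg_iff det_Mt)

theorem exists_XI (hLKI : S_LKI) (hVALI : S_VALI) (hBSI : S_BSI) (hHCT : S_HCT) (hLHT : S_LHT)
    (hCHI : S_CHI) {S : Finset GaussianInt} (hS : ∀ l ∈ S, OP l) :
    ∃ (c : ZI) (X : ZI →* ℂ) (L : PeriodPair) (Ω m M : ℂ), HC c X ∧ X pi1 = 0 ∧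
      (∀ z : ZI, PP z → z ∣ ∏ l ∈ S, l → X z = 0) ∧
      (∀ z : ZI, PP z → ¬ z ∣ ∏ l ∈ S, l →
        X z = (starRingEnd ℂ) (tc (Pool.Agent.Y699.q4 z (-BI S)))) ∧
      GLat L Ω ∧ m ^ 8 = -16 ∧ LH X (1 / 2) = (starRingEnd ℂ) M ∧
      ∀ (Γ : Type) [LinearOrderedCommGroupWithZero Γ] (w : Valuation ℂ Γ), w 2 < 1 →
        w (M / (Ω / tc two2 * m * (1 + I) ^ S.card)) ≤ 1 ∧
        (w (M / (Ω / tc two2 * m * (1 + I) ^ S.card)) = 1 ↔ (Mt gA gθ S).det ≠ 0) := by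
  classical
  obtain ⟨L, Ω, hG⟩ := exists_GL
  obtain ⟨b3, b1⟩ := hBSI L Ω hG
  set pr : {l // l ∈ S} → ZI := fun l => (l : ZI) with hpr
  have hp : PF pr := ⟨fun i => toPP (hS i.1 i.2), Subtype.val_injective⟩
  have hD : DD pr Finset.univ = ∏ l ∈ S, l := by
    unfold DD
    exact Finset.prod_coe_sort S (fun l => l)
  have hcard : (Finset.univ : Finset {l // l ∈ S}).card = S.card := by
    rw [Finset.card_univ, Fintype.card_coe]
  have hB : -BI S = -(im1 * DD pr Finset.univ) := by rw [hD]; rfl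
  obtain ⟨hC1, hC2⟩ := hCHI {l // l ∈ S} pr hp Finset.univ
  have hdet := det_Mt hS
  have hz : ∀ x : ZMod 2, x = 1 ↔ x ≠ 0 := by decide
  have hun : un pi1 = 0 := un_even (by decide)
  have h01 : ∀ a : ZMod 2, a = 0 ∨ a = 1 := by decide
  have key : ∀ {θ : ZI → ZI} (H : TH θ) {KT : ℂ → ℂ} {χ : ZI → ℂ}
      (hχ : ∀ b, tc (θ (1 + two2 * b)) = χ b)
      (h : ∀ z : ℂ, z ∉ L.lattice → Tendsto (fun δ : ℝ => ∑' b : ZI, χ b * fd δ (z + Ω * tc b))
        (𝓝[>] 0) (𝓝 (KT z))) (hm : KT (dz Ω) ^ 8 = -16)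
      (hV : ∀ (Γ : Type) [LinearOrderedCommGroupWithZero Γ] (v : Valuation ℂ Γ), v 2 < 1 →
        ∀ P : ℂ, OT L P → v ((KT (dz Ω + P) + KT (dz Ω - P)) / KT (dz Ω)) < 1 ∧
          v ((1 + I) * KT (dz Ω - P) / KT (dz Ω)) < 1),
      ∃ M : ℂ, LH (XT H hp Finset.univ) (1 / 2) = (starRingEnd ℂ) M ∧
        ∀ (Γ : Type) [LinearOrderedCommGroupWithZero Γ] (w : Valuation ℂ Γ), w 2 < 1 →
        w (M / (Ω / tc two2 * KT (dz Ω) * (1 + I) ^ S.card)) ≤ 1 ∧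
        (w (M / (Ω / tc two2 * KT (dz Ω) * (1 + I) ^ S.card)) = 1 ↔ (Mt gA gθ S).det ≠ 0) := by
    intro θ H KT χ hχ h hm hV
    have hm0 : KT (dz Ω) ≠ 0 := by
      intro h0
      rw [h0] at hm
      norm_num at hm
    have hex : ∀ T : Finset {l // l ∈ S}, ∃ l, Tendsto (RS (cT θ pr T)) (𝓝[>] 0) (𝓝 l) :=
      fun T => by
      haveI := H385.he1_finite (DD_ne hp T)
      letI := Fintype.ofFinite (RQ (DD pr T))
      exact ⟨_, exists_MT H hχ hG h hp T⟩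
    choose M hM using hex
    refine ⟨M Finset.univ, hLHT θ H _ pr hp _ _ (hM _), fun Γ _ w hw2 => ?_⟩
    have h1 := muT_cg H hχ hG h hp hm0 hM (v := w) hw2
      (by rw [div_self hm0]; exact Cg.refl (by rw [map_one])) (hV Γ w hw2) Finset.univ
    have h2 := cg_iff h1
    unfold mu at h2
    rw [hcard] at h2
    refine ⟨h2.1, h2.2.trans ?_⟩
    rw [hdet]
    exact hz _
  rcases h01 (∑ i, Pool.Agent.Y699.wt pr i) with hw | hw
  · obtain ⟨M, hM1, hM2⟩ := key th_x3 (KT := K3 L Ω) x3_shift (fun z hz => (hLKI L Ω hG z hz).1) b3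
      (fun Γ _ v hv P hP => (hVALI L Ω hG Γ v hv _ b3 P hP).1)
    refine ⟨cn8 pr Finset.univ, XT th_x3 hp Finset.univ, L, Ω, K3 L Ω (dz Ω), M,
      hHCT _ th_x3 _ pr hp _, ?_, ?_, ?_, hG, b3, hM1, hM2⟩
    · rw [XT_apply, hun, tc_zero, zero_mul]
    · intro z hz hd
      rw [← hD] at hd
      exact (hC1 z hz hd).1
    · intro z hz hd
      rw [← hD] at hd
      rw [hB]
      exact (hC2 z hz hd).1 hw
  · obtain ⟨M, hM1, hM2⟩ := key th_x1 (KT := K1 L Ω) x1_shift (fun z hz => (hLKI L Ω hG z hz).2) b1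
      (fun Γ _ v hv P hP => (hVALI L Ω hG Γ v hv _ b1 P hP).2)
    refine ⟨cn8 pr Finset.univ, XT th_x1 hp Finset.univ, L, Ω, K1 L Ω (dz Ω), M,
      hHCT _ th_x1 _ pr hp _, ?_, ?_, ?_, hG, b1, hM1, hM2⟩
    · rw [XT_apply, hun, tc_zero, zero_mul]
    · intro z hz hd
      rw [← hD] at hd
      exact (hC1 z hz hd).2
    · intro z hz hd
      rw [← hD] at hd
      rw [hB]
      exact (hC2 z hz hd).2 hw

end Pool.Agent.E8helper75.QI
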