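import Pool.Agent.E8helper21.Q2.Rec4

/-!
The curves `y² = x³ + i D x` over `ℚ(i)`: the definitions.
-/

set_option autoImplicit false
set_option linter.unusedSectionVars false

open Filter Complex
open scoped Topology PeriodPair
open H667R3 hiding sq
open Pool.Agent.TH936.CM Pool.Agent.W192.HK

namespace Pool.Agent.E8helper75.QI

open Pool.Agent.Y699
open Pool.Agent.E8helper21.Q2
open H385 (ZI RQ im1 nrm)
open Pool.Agent.H304R3.HK (tc HC LH)
open Pool.Agent.W164.RC (tc_mul tc_star two2 prim_iff_dvd unit_norm unit_cases)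
open Pool.Agent.H304R2.EC.A1 (prim prim_mul prim_cancel prim_one prim_norm_odd prim_star eq_one_of_prim
  norm_def' re_mul' im_mul' eq_of_dvd prim_ne_zero exists_prim)

/-- `i ^ ((1 - Re a) / 2)`, for primary `a` the quartic symbol `(i / a)` -/
def x1 (a : ZI) : ZI := im1 ^ (((1 - a.re) / 2) % 4).toNat

/-- the conjugate of `x1`, for primary `a` the quartic symbol `(-i / a)` -/
def x3 (a : ZI) : ZI := star (x1 a)

/-- a character of the primary elements modulo `8 i` with values in the units -/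
structure TH (θ : ZI → ZI) : Prop where
  nm : ∀ a, (θ a).norm = 1
  one : θ 1 = 1
  mul : ∀ a b, prim a → prim b → θ (a * b) = θ a * θ b
  per : ∀ a q, θ (a + two2 * (two2 * q)) = θ a
  sqr : ∀ a, prim a → θ a ^ 2 = if a.norm % 8 = 5 then -1 else 1

lemma x1_norm (a : ZI) : (x1 a).norm = 1 := by
  unfold x1
  have h1 : ((1 - a.re) / 2) % 4 = 0 ∨ ((1 - a.re) / 2) % 4 = 1 ∨ ((1 - a.re) / 2) % 4 = 2 ∨
      ((1 - a.re) / 2) % 4 = 3 := by
    omega
  rcases h1 with h | h | h | h <;> rw [h] <;> decide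

lemma x1_one : x1 1 = 1 := by decide

lemma x1_per {a b : ZI} (h : a.re % 8 = b.re % 8) : x1 a = x1 b := by
  unfold x1
  have : ((1 - a.re) / 2) % 4 = ((1 - b.re) / 2) % 4 := by omega
  rw [this]

lemma x1_eq {a : ZI} {k : ℕ} (h : (1 - a.re) % 8 = (2 * k : ℤ) % 8) : x1 a = im1 ^ k := by
  unfold x1
  have h1 : ((1 - a.re) / 2) % 4 = ((k % 4 : ℕ) : ℤ) := by omega
  rw [h1, Int.toNat_natCast]
  exact unit_pow_mod im1_norm (by omega)

lemma x1_mul {a b : ZI} (ha : prim a) (hb : prim b) : x1 (a * b) = x1 a * x1 b := by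
  obtain ⟨a1, a2⟩ := ha
  obtain ⟨b1, b2⟩ := hb
  obtain ⟨s, hs⟩ : ∃ s, a.im = 2 * s := ⟨a.im / 2, by omega⟩
  obtain ⟨u, hu⟩ : ∃ u, b.im = 2 * u := ⟨b.im / 2, by omega⟩
  obtain ⟨k, hk⟩ : ∃ k, a.re = 1 - 2 * s + 4 * k := ⟨(a.re - 1 + 2 * s) / 4, by omega⟩
  obtain ⟨l, hl⟩ : ∃ l, b.re = 1 - 2 * u + 4 * l := ⟨(b.re - 1 + 2 * u) / 4, by omega⟩
  have e1 : (1 - (a * b).re) % 8 = (2 * ((s - 2 * k) + (u - 2 * l))) % 8 := by
    rw [re_mul', hs, hu, hk, hl]
    have : 1 - ((1 - 2 * s + 4 * k) * (1 - 2 * u + 4 * l) - 2 * s * (2 * u)) =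
        2 * ((s - 2 * k) + (u - 2 * l)) + 8 * (s * l + k * u - 2 * (k * l)) := by ring
    rw [this]
    omega
  have hs' : x1 a = im1 ^ ((s - 2 * k) % 4).toNat := by
    refine x1_eq ?_
    have : (0 : ℤ) ≤ (s - 2 * k) % 4 := by omega
    rw [Int.toNat_of_nonneg this, hk]
    omega
  have hu' : x1 b = im1 ^ ((u - 2 * l) % 4).toNat := by
    refine x1_eq ?_
    have : (0 : ℤ) ≤ (u - 2 * l) % 4 := by omega
    rw [Int.toNat_of_nonneg this, hl]
    omega
  rw [hs', hu', ← pow_add]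
  refine x1_eq ?_
  rw [e1]
  push_cast
  have h1 : (0 : ℤ) ≤ (s - 2 * k) % 4 := by omega
  have h2 : (0 : ℤ) ≤ (u - 2 * l) % 4 := by omega
  rw [Int.toNat_of_nonneg h1, Int.toNat_of_nonneg h2]
  omega

lemma th_x1 : TH x1 where
  nm := x1_norm
  one := x1_one
  mul _ _ := x1_mul
  per a q := by
    apply x1_per
    have e : (two2 * (two2 * q)).re = -(8 * q.im) := by
      rw [re_mul', im_mul', re_mul']
      show (2 : ℤ) * (2 * q.re - 2 * q.im) - 2 * (2 * q.im + 2 * q.re) = _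
      ring
    rw [Zsqrtd.re_add, e]
    omega
  sqr a h := by
    obtain ⟨h1, h2⟩ := h
    have hn := norm_def' a
    obtain ⟨k, hk⟩ : ∃ k, a.im = 2 * k := ⟨a.im / 2, by omega⟩
    obtain ⟨l, hl⟩ : ∃ l, a.re = 2 * l + 1 := ⟨a.re / 2, by omega⟩
    have e1 : a.norm = 4 * (l * (l + 1)) + 1 + 4 * (k * k) := by
      rw [hn, hk, hl]; ring
    obtain ⟨c, hc⟩ := Int.even_mul_succ_self l
    unfold x1
    have hk2 : (1 - a.re) / 2 = -l := by omega
    rw [hk2]
    rcases Int.even_or_odd' k with ⟨t, ht | ht⟩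
    · have e2 : a.norm % 8 ≠ 5 := by
        have : k * k = 4 * (t * t) := by rw [ht]; ring
        rw [e1, this, hc]
        omega
      rw [if_neg e2]
      have h3 : (-l) % 4 = 0 ∨ (-l) % 4 = 2 := by omega
      rcases h3 with h3 | h3 <;> rw [h3] <;> decide
    · have e2 : a.norm % 8 = 5 := by
        have : k * k = 4 * (t * t + t) + 1 := by rw [ht]; ring
        rw [e1, this, hc]
        omega
      rw [if_pos e2]
      have h3 : (-l) % 4 = 1 ∨ (-l) % 4 = 3 := by omega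
      rcases h3 with h3 | h3 <;> rw [h3] <;> decide

lemma th_x3 : TH x3 where
  nm a := by unfold x3; rw [Zsqrtd.norm_conj, x1_norm]
  one := by decide
  mul a b ha hb := by unfold x3; rw [x1_mul ha hb, star_mul, mul_comm]
  per a q := by unfold x3; rw [th_x1.per]
  sqr a h := by
    unfold x3
    rw [← star_pow, th_x1.sqr a h]
    split_ifs <;> decide

lemma TH.tcn {θ : ZI → ZI} (H : TH θ) (a : ZI) : ‖tc (θ a)‖ = 1 := unit_tc (H.nm a)

variable {ι : Type} [DecidableEq ι] {pr : ι → ZI}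

open Classical in
/-- the coefficients of the central value -/
noncomputable def cT (θ : ZI → ZI) (pr : ι → ZI) (V : Finset ι) (a : ZI) : ℂ :=
  if prim a then tc (θ a * c4 pr V on1 a) else 0

/-- the Hecke character -/
noncomputable def XT {θ : ZI → ZI} (H : TH θ) (hp : PF pr) (V : Finset ι) : ZI →* ℂ where
  toFun a := tc (un a) * (starRingEnd ℂ) (tc (θ (un a * a) * c4 pr V on1 (un a * a)))
  map_one' := by
    rw [un_prim prim_one, one_mul, H.one, c4_one hp, tc_one, mul_one, tc_one]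
    simp
  map_mul' := by
    intro a b
    by_cases ha : a.norm % 2 = 1
    · by_cases hb : b.norm % 2 = 1
      · obtain ⟨u, hu⟩ := exists_Um ha
        obtain ⟨w, hw⟩ := exists_Um hb
        have e : un (a * b) * (a * b) = (un a * a) * (un b * b) := by rw [un_mul]; ring
        have hu' : prim (un a * a) := by rw [un_eq hu]; exact hu.2
        have hw' : prim (un b * b) := by rw [un_eq hw]; exact hw.2
        rw [e, c4_mul hp, un_mul, H.mul _ _ hu' hw']
        simp only [tc_mul, map_mul]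
        ring
      · rw [un_even hb, un_mul, un_even hb, mul_zero, tc_zero]
        ring
    · rw [un_even ha, un_mul, un_even ha, zero_mul, tc_zero]
      ring

lemma XT_apply {θ : ZI → ZI} (H : TH θ) (hp : PF pr) (V : Finset ι) (a : ZI) :
    XT H hp V a = tc (un a) * (starRingEnd ℂ) (tc (θ (un a * a) * c4 pr V on1 (un a * a))) := rfl

lemma XT_prim {θ : ZI → ZI} (H : TH θ) (hp : PF pr) (V : Finset ι) {a : ZI} (ha : prim a) :
    XT H hp V a = (starRingEnd ℂ) (tc (θ a * c4 pr V on1 a)) := by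
  rw [XT_apply, un_prim ha, tc_one, one_mul, one_mul]

/-- the function with the character `tI (i b)`, for `x3` -/
noncomputable def K3 (L : PeriodPair) (Ω z : ℂ) : ℂ := I * Kf L Ω (I * z)

/-- the function with the character `tI (-i b)`, for `x1` -/
noncomputable def K1 (L : PeriodPair) (Ω z : ℂ) : ℂ := -I * Kf L Ω (-(I * z))

lemma tI_pow (b : ZI) {n : ℕ} (h : (b.re + b.im) % 4 = (n : ℤ) % 4) : tI b = I ^ n := by
  unfold tI
  obtain ⟨k, hk⟩ : ∃ k : ℤ, b.re + b.im = n + 4 * k := ⟨(b.re + b.im - n) / 4, by omega⟩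
  rw [hk, zpow_add₀ I_ne_zero, zpow_mul]
  have : (I : ℂ) ^ (4 : ℤ) = 1 := by
    have := I_pow_four
    exact_mod_cast this
  rw [this, one_zpow, mul_one, zpow_natCast]

lemma x1_shift (b : ZI) : tc (x1 (1 + two2 * b)) = tI (-(im1 * b)) := by
  have e2 : (1 + two2 * b).re = 1 + 2 * (b.re - b.im) := by
    rw [Zsqrtd.re_add, re_mul']
    show (1 : ℤ) + (2 * b.re - 2 * b.im) = _
    ring
  have e3 : (-(im1 * b)).re + (-(im1 * b)).im = b.im - b.re := by
    rw [Zsqrtd.re_neg, Zsqrtd.im_neg, re_mul', im_mul']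
    show -((0 : ℤ) * b.re - 1 * b.im) + -((0 : ℤ) * b.im + 1 * b.re) = _
    ring
  set n := ((b.im - b.re) % 4).toNat with hn
  have h0 : (0 : ℤ) ≤ (b.im - b.re) % 4 := by omega
  have h1 : (n : ℤ) = (b.im - b.re) % 4 := by rw [hn, Int.toNat_of_nonneg h0]
  rw [x1_eq (k := n) (by rw [e2]; omega), tc_pow, tc_im1, tI_pow _ (n := n) (by rw [e3]; omega)]

lemma x3_shift (b : ZI) : tc (x3 (1 + two2 * b)) = tI (im1 * b) := by
  unfold x3
  rw [tc_star, x1_shift]
  unfold tI
  rw [map_zpow₀, conj_I, Zsqrtd.re_neg, Zsqrtd.im_neg]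
  have e : -(im1 * b).re + -(im1 * b).im = -((im1 * b).re + (im1 * b).im) := by ring
  rw [e, zpow_neg, ← inv_zpow, inv_neg, inv_I, neg_neg]

end Pool.Agent.E8helper75.QI
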