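import Pool.Agent.Y697.PP.Asy2

/-!
The statement of the piece EXK: the exact proportion of the sets of primary primes with a matrix that is
not singular.
-/

set_option autoImplicit false

open Filter

namespace Pool.Agent.E8helper75.QI

open Pool.Agent.Y697.PP (SS Dt)

open scoped Classical in
/-- EXK: the exact proportion -/
def S_EXK : Prop := Tendsto (fun X : ℕ => (((SS X).filter fun S => Dt S).card : ℝ) /
  ((SS X).card : ℝ)) atTop (nhds (∏' i : ℕ, (1 - (1 / 2 : ℝ) ^ (2 * i + 1))))

end Pool.Agent.E8helper75.QI
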