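import Pool.Agent.E8helper75.QI.Anx
import Pool.Agent.Y697.PP.Asy2

/-!
# The 2-part of the strong conjecture of Birch and Swinnerton-Dyer for quartic twists over `ℚ(i)`

(Helper file of the projects QK, QI and WR: the criterion from the pieces, which are hypotheses here.)

`K` is a number field with an isomorphism `e` of the ring `ℤ[i]` of Gaussian integers with its ring
of integers (so `K = ℚ(i)`), `S` is any finite set of primary primes of `ℤ[i]`, `D = ∏ p` (`p ∈ S`), and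
`E : y² = x³ + u D x` with `u` one of `2`, `i`, `-i` is the quartic twist by `u D` of `y² = x³ + x`. Let
`z = L(E/K, 1) √|disc K| #E(K)_tors² / (Ω ∏ c_v)`, which is zero or the order of `Ш(E/K)`
according to the conjecture. With no hypothesis on the rank or on `Ш` we prove:
* `L(E/K, s)` is entire, the equation of `E` is minimal at all the finite places,
  `∏ c_v` is `2 ^ #S`, or twice this number for `u = 2`, and the order of the torsion subgroup is twice
  an odd number;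
* `z` is integral at all the valuations of `ℂ` above two, and it is a unit at one of them iff it is so
  at all of them iff the group `E(K)` is finite and `Ш(E/K)[2]` is zero iff the matrix `mat S` over
  `𝔽₂` of the quadratic residue symbols is not singular (the implication from algebra to analysis is a
  2-converse theorem, that from analysis to algebra is the 2-part of the formula); the matrix does not
  depend on `u`, so these conditions hold for all the three curves or for none of them;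
* in this case `E(K)` is finite, the 2-primary part of `Ш(E/K)` is zero and `L(E/K, 1) ≠ 0`;
* this is so, for all the three curves, for at least 41.9 per cent of all the primary squarefree `D`,
  ordered by norm.
-/

set_option autoImplicit false

namespace Pool.Agent.E8helper75.QI.C

open NumberField IsDedekindDomain
open Pool.Agent.TH841.NF.D (Sha)

/-- `g` is primary: `g ≡ 1` modulo `2 + 2i`. -/
def Primary (g : GaussianInt) : Prop := (⟨2, 2⟩ : GaussianInt) ∣ g - 1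

/-- `u` is one of `2`, `i`, `-i`. -/
def Coef (u : GaussianInt) : Prop := u = 2 ∨ u = ⟨0, 1⟩ ∨ u = ⟨0, -1⟩

/-- The curve `y² = x³ + u D x`, the quartic twist by `u D` of the curve `y² = x³ + x`. -/
noncomputable def curve {K : Type} [Field K] [NumberField K] (e : GaussianInt ≃+* 𝓞 K)
    (u D : GaussianInt) : WeierstrassCurve K :=
  ⟨0, 0, 0, algebraMap (𝓞 K) K (e (u * D)), 0⟩

open scoped Classical in
/-- The equation `E` is minimal at every finite place `v`, and `c v` is the Tamagawa number of `E` at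
`v`: the index in `E(K_v)` of the subgroup of the points of nonsingular reduction. -/
def IsTamagawa {K : Type} [Field K] [NumberField K] (E : WeierstrassCurve K)
    (c : HeightOneSpectrum (𝓞 K) → ℕ) : Prop :=
  (∀ v : HeightOneSpectrum (𝓞 K),
    (E.baseChange (v.adicCompletion K)).IsMinimal (v.adicCompletionIntegers K) ∧
    ∃ H : AddSubgroup (E.baseChange (v.adicCompletion K)).toAffine.Point,
      (∀ P, P ∈ H ↔ Pool.Agent.Y696.NonsingRed Valued.v (E.baseChange (v.adicCompletion K)) P) ∧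
      H.index = c v) ∧
  {v | c v ≠ 1}.Finite

/-- `Λ` is the lattice of periods of the differential `dx / (2y + a₁x + a₃)` of the curve `E`, embedded
in the complex numbers by `σ`. -/
def IsPeriodLattice {K : Type} [Field K] (E : WeierstrassCurve K) (σ : K →+* ℂ)
    (Λ : PeriodPair) : Prop :=
  Λ.g₂ = σ E.c₄ / 12 ∧ Λ.g₃ = σ E.c₆ / 216

/-- Twice the area of a fundamental parallelogram of the lattice. -/
noncomputable def period (Λ : PeriodPair) : ℝ := 2 * |((starRingEnd ℂ) Λ.ω₁ * Λ.ω₂).im|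

open Classical in
/-- The order of the torsion subgroup of `E(K)`. -/
noncomputable def torsOrder {K : Type} [Field K] (E : WeierstrassCurve K) : ℕ :=
  Nat.card (AddCommGroup.torsion E.toAffine.Point)

/-- The order of the Tate-Shafarevich group predicted by the formula in rank zero, for the value `l` of
the L-function at `s = 1`: `l √|disc K| #E(K)_tors² / (Ω ∏ c_v)`. -/
noncomputable def anOrder {K : Type} [Field K] [NumberField K] (E : WeierstrassCurve K) (l : ℂ)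
    (Λ : PeriodPair) (c : HeightOneSpectrum (𝓞 K) → ℕ) : ℂ :=
  l * (Real.sqrt |(discr K : ℝ)| : ℝ) * (torsOrder E : ℂ) ^ 2 /
    ((period Λ : ℂ) * ((∏ᶠ v, c v : ℕ) : ℂ))

/-- `L` is an entire continuation of the L-series of `E`. -/
def IsL {K : Type} [Field K] [NumberField K] (E : WeierstrassCurve K) (L : ℂ → ℂ) : Prop :=
  Differentiable ℂ L ∧ ∀ s : ℂ, 3 / 2 < s.re →
    LSeriesSummable ((fun n : ℤ => (n : ℂ)) ∘ E.LFunction) s ∧ L s = E.LSeries s

open Classical in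
/-- `0` if `a` is a square modulo `p`, and `1` if it is not. -/
noncomputable def nonsq (a p : GaussianInt) : ZMod 2 := if ∃ b : GaussianInt, p ∣ b ^ 2 - a then 0 else 1

/-- The matrix over the field with two elements, with rows and columns indexed by the set `S` of primary
primes of `ℤ[i]`: the entry at `(p, q)` is `nonsq p q` for `p ≠ q`, and the entry at `(p, p)` is the sum
of `nonsq i p` and of the `nonsq p q` for the `q ≠ p` in `S`. -/
noncomputable def mat (S : Finset GaussianInt) : Matrix S S (ZMod 2) := Matrix.of fun p q =>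
  if q = p then nonsq ⟨0, 1⟩ p + ∑ r ∈ S.erase (p : GaussianInt), nonsq p r else nonsq p q

/-- The 2-part of the conjecture of Birch and Swinnerton-Dyer for a curve `E` over an imaginary quadratic
field `K`, in the case that the predicted order of `Ш` is a unit above two: `E(K)` is finite, the
2-primary part of `Ш(E/K)` is trivial, `L(E/K, s)` is entire, `L(E/K, 1) ≠ 0`, and the predicted order of
`Ш(E/K)` is a unit at every valuation `w` of the field of complex numbers with `w 2 < 1`. -/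
def TwoPart {K : Type} [Field K] [NumberField K] (E : WeierstrassCurve K) : Prop :=
  Finite E.toAffine.Point ∧ (∀ (n : ℕ) (x : Sha E), 2 ^ n • x = 0 → x = 0) ∧
  ∃ (L : ℂ → ℂ) (c : HeightOneSpectrum (𝓞 K) → ℕ), IsL E L ∧ L 1 ≠ 0 ∧ IsTamagawa E c ∧
    ∀ σ : K →+* ℂ, (∃ Λ : PeriodPair, IsPeriodLattice E σ Λ) ∧
      ∀ Λ : PeriodPair, IsPeriodLattice E σ Λ →
        ∀ (Γ : Type) [LinearOrderedCommGroupWithZero Γ] (w : Valuation ℂ Γ), w 2 < 1 →
          w (anOrder E (L 1) Λ c) = 1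

/-- The group `E(K)` is finite and `Ш(E/K)` has no element of order two. -/
def NoSelmer {K : Type} [Field K] [NumberField K] (E : WeierstrassCurve K) : Prop :=
  Finite E.toAffine.Point ∧ ∀ x : Sha E, 2 • x = 0 → x = 0

/-- The statement for the curve `y² = x³ + u D x` with the primary `D = ∏ p`, `p ∈ S`. -/
def Criterion {K : Type} [Field K] [NumberField K] (e : GaussianInt ≃+* 𝓞 K) (u : GaussianInt)
    (S : Finset GaussianInt) : Prop :=
  (∃ (L : ℂ → ℂ) (c : HeightOneSpectrum (𝓞 K) → ℕ), IsL (curve e u (∏ p ∈ S, p)) L ∧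
    IsTamagawa (curve e u (∏ p ∈ S, p)) c ∧ ∏ᶠ v, c v = (if u = 2 then 2 else 1) * 2 ^ S.card ∧
    (∃ t : ℕ, Odd t ∧ torsOrder (curve e u (∏ p ∈ S, p)) = 2 * t) ∧
    ∀ σ : K →+* ℂ, (∃ Λ : PeriodPair, IsPeriodLattice (curve e u (∏ p ∈ S, p)) σ Λ) ∧
      ∀ Λ : PeriodPair, IsPeriodLattice (curve e u (∏ p ∈ S, p)) σ Λ →
        ∀ (Γ : Type) [LinearOrderedCommGroupWithZero Γ] (w : Valuation ℂ Γ), w 2 < 1 →
          w (anOrder (curve e u (∏ p ∈ S, p)) (L 1) Λ c) ≤ 1 ∧
          (w (anOrder (curve e u (∏ p ∈ S, p)) (L 1) Λ c) = 1 ↔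
            NoSelmer (curve e u (∏ p ∈ S, p)))) ∧
  (NoSelmer (curve e u (∏ p ∈ S, p)) ↔ (mat S).det ≠ 0) ∧
  ((mat S).det ≠ 0 → TwoPart (curve e u (∏ p ∈ S, p)))

/-- The primary squarefree Gaussian integers of norm at most `X`. -/
def Family (X : ℕ) : Set GaussianInt := {D | D.norm.natAbs ≤ X ∧ Primary D ∧ Squarefree D}

/-- Those `D` such that the 2-part of the conjecture holds for the three curves `y² = x³ + u D x`, `u` one
of `2`, `i`, `-i`, over `K = ℚ(i)` (every number field `K` with an isomorphism `e` of `ℤ[i]` with its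
ring of integers), with predicted orders of `Ш` that are units above two. -/
def Proved (X : ℕ) : Set GaussianInt :=
  {D | D ∈ Family X ∧ ∀ (K : Type) [Field K] [NumberField K] (e : GaussianInt ≃+* 𝓞 K)
    (u : GaussianInt), Coef u → TwoPart (curve e u D)}

section proof

open Pool.Agent.R428.G
open Pool.Agent.E8helper75.QK Pool.Agent.E8helper75.QI
open Pool.Agent.E8helper21.Q2 (S_LK S_VAL S_M0 S_HCK S_LHE)
open Pool.Agent.Y697.MQ (OP leg ci gA gθ leg_I leg_cases leg_eq_zero Pr_iff)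
open Pool.Agent.Y697.PP (Mt SS mem_SS Dt NS prod_inj many_Dt)
open Pool.Agent.Y715.Z (em0 em0_ne q4 q4_map q4_c₄)

lemma op_iff (p : GaussianInt) : Prime p ∧ Primary p ↔ OP p :=
  ⟨fun h => ⟨h.1, (Pr_iff p).2 h.2⟩, fun h => ⟨h.pr, (Pr_iff p).1 h.pm⟩⟩

lemma nonsq_eq {a p : GaussianInt} (h : ¬ p ∣ a) : nonsq a p = if leg p a = -1 then 1 else 0 := by
  unfold nonsq leg
  rw [if_neg h]
  by_cases h1 : ∃ b : GaussianInt, p ∣ b ^ 2 - a
  · rw [if_pos h1, if_pos h1, if_neg (by norm_num)]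
  · rw [if_neg h1, if_neg h1, if_pos rfl]

lemma mat_eq {S : Finset GaussianInt} (hS : ∀ l ∈ S, OP l) : mat S = Mt gA gθ S := by
  have hA : ∀ p ∈ S, ∀ q ∈ S, q ≠ p → nonsq p q = gA p q := by
    intro p hp q hq hne
    rw [nonsq_eq fun h => hne ((hS q hq).dvd (hS p hp) h)]
    rfl
  have hθ : ∀ p ∈ S, nonsq ⟨0, 1⟩ p = gθ p := by
    intro p hp
    have h1 : ¬ p ∣ (⟨0, 1⟩ : GaussianInt) := fun h => (hS p hp).pr.not_isUnit
      (isUnit_of_dvd_unit h (IsUnit.of_mul_eq_one (⟨0, -1⟩ : GaussianInt) (by decide)))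
    rw [nonsq_eq h1]
    unfold gθ
    rw [← leg_I (hS p hp)]
  ext p q
  unfold mat Mt
  rw [Matrix.of_apply]
  by_cases h : q = p
  · rw [if_pos h, if_pos h, hθ p p.2]
    congr 1
    refine Finset.sum_congr rfl fun r hr => ?_
    rw [Finset.mem_erase] at hr
    exact hA p p.2 r hr.2 hr.1
  · rw [if_neg h, if_neg h]
    exact hA p p.2 q q.2 fun h' => h (Subtype.ext h')

open scoped Classical in
/-- The criterion from its parts. -/
theorem crit_gen {K : Type} [Field K] [NumberField K] (e : GaussianInt ≃+* 𝓞 K)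
    {S : Finset GaussianInt} (hS : ∀ l ∈ S, OP l) {u : GaussianInt} (hu : u ≠ 0)
    {c : HeightOneSpectrum (𝓞 K) → ℕ}
    (hMIN : ∀ v : HeightOneSpectrum (𝓞 K), WeierstrassCurve.IsMinimal (v.adicCompletionIntegers K)
      (q4 (algebraMap K (v.adicCompletion K) (em0 e (u * ∏ p ∈ S, p)))))
    (hTAM : ∀ v : HeightOneSpectrum (𝓞 K), ∃ H : AddSubgroup
      (q4 (algebraMap K (v.adicCompletion K) (em0 e (u * ∏ p ∈ S, p)))).toAffine.Point,
      (∀ P, P ∈ H ↔ Pool.Agent.Y696.NonsingRed (Pool.Agent.Y682.vv v)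
        (q4 (algebraMap K (v.adicCompletion K) (em0 e (u * ∏ p ∈ S, p)))) P) ∧ H.index = c v)
    (hcf : {v : HeightOneSpectrum (𝓞 K) | c v ≠ 1}.Finite)
    (hcp : ∏ᶠ v, c v = (if u = 2 then 2 else 1) * 2 ^ S.card) {t : ℕ} (ht : Odd t)
    (htor' : torsOrder (curve e u (∏ p ∈ S, p)) = 2 * t) {L : ℂ → ℂ}
    (hIsL : IsL (curve e u (∏ p ∈ S, p)) L)
    (hval : ∀ (σ : K →+* ℂ) (Λ : PeriodPair), Λ.g₂ = -4 * σ (em0 e (u * ∏ p ∈ S, p)) → Λ.g₃ = 0 →
      ∀ (Γ : Type) [LinearOrderedCommGroupWithZero Γ] (w : Valuation ℂ Γ), w 2 < 1 →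
        w (L 1 * 2 * ((2 * t : ℕ) : ℂ) ^ 2 / (((2 * |((starRingEnd ℂ) Λ.ω₁ * Λ.ω₂).im| : ℝ) : ℂ) *
          (((if u = 2 then 2 else 1) * 2 ^ S.card : ℕ) : ℂ))) ≤ 1 ∧
        (w (L 1 * 2 * ((2 * t : ℕ) : ℂ) ^ 2 / (((2 * |((starRingEnd ℂ) Λ.ω₁ * Λ.ω₂).im| : ℝ) : ℂ) *
          (((if u = 2 then 2 else 1) * 2 ^ S.card : ℕ) : ℂ))) = 1 ↔ (Mt gA gθ S).det ≠ 0))
    (hSHA : (∀ t : GaussianInt → ZMod 2, (∀ v ∈ S, gθ v * t v + ∑ u ∈ S, gA v u * (t v + t u) = 0) →
      ∀ v ∈ S, t v = 0) → ∀ W : WeierstrassCurve K,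
      Pool.Agent.Y682.IsT W 0 (em0 e (u * ∏ p ∈ S, p)) →
        Module.finrank ℤ (Pool.Agent.Y682.MP W) = 0 ∧ ∀ x : Sha W, 2 • x = 0 → x = 0)
    (hCNV : (Mt gA gθ S).det = 0 → Finite (curve e u (∏ p ∈ S, p)).toAffine.Point →
      (∀ x : Sha (curve e u (∏ p ∈ S, p)), 2 • x = 0 → x = 0) → False) : Criterion e u S := by
  classical
  set D : GaussianInt := ∏ l ∈ S, l with hD
  have hsq : Squarefree D := sqf_prod hS
  have hBne : u * D ≠ 0 := mul_ne_zero hu hsq.ne_zero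
  have hB0 : em0 e (u * D) ≠ 0 := em0_ne e hBne
  have hTam : IsTamagawa (curve e u D) c := by
    refine ⟨fun v => ?_, hcf⟩
    have hbc : (curve e u D).baseChange (v.adicCompletion K) =
        q4 (algebraMap K (v.adicCompletion K) (em0 e (u * D))) := q4_map _ _
    rw [hbc]
    exact ⟨hMIN v, hTAM v⟩
  have hper : ∀ σ : K →+* ℂ, (∃ Λ : PeriodPair, IsPeriodLattice (curve e u D) σ Λ) ∧
      ∀ Λ : PeriodPair, IsPeriodLattice (curve e u D) σ Λ →
        ∀ (Γ : Type) [LinearOrderedCommGroupWithZero Γ] (w : Valuation ℂ Γ), w 2 < 1 →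
          w (anOrder (curve e u D) (L 1) Λ c) ≤ 1 ∧
          (w (anOrder (curve e u D) (L 1) Λ c) = 1 ↔ (mat S).det ≠ 0) := by
    intro σ
    have h4 : σ (curve e u D).c₄ / 12 = -4 * σ (em0 e (u * D)) := by
      have h5 : (curve e u D).c₄ = -48 * em0 e (u * D) := q4_c₄ _
      rw [h5, map_mul, map_neg, map_ofNat]
      ring
    have h6 : σ (curve e u D).c₆ / 216 = 0 := by
      have h7 : (curve e u D).c₆ = 0 := by
        simp only [curve, WeierstrassCurve.c₆, WeierstrassCurve.b₂, WeierstrassCurve.b₄,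
          WeierstrassCurve.b₆]
        ring
      rw [h7, map_zero, zero_div]
    have hσ0 : σ (em0 e (u * D)) ≠ 0 := by
      rw [Ne, map_eq_zero]; exact hB0
    refine ⟨?_, fun Λ hΛ Γ _ w hw => ?_⟩
    · obtain ⟨Λ, h8, h9⟩ := Pool.Agent.Y715.Z.per_ex hσ0
      exact ⟨Λ, by rw [h4]; exact h8, by rw [h6]; exact h9⟩
    · have h10 := hval σ Λ (hΛ.1.trans h4) (hΛ.2.trans h6) Γ w hw
      have h11 : anOrder (curve e u D) (L 1) Λ c =
          L 1 * 2 * ((2 * t : ℕ) : ℂ) ^ 2 / (((2 * |((starRingEnd ℂ) Λ.ω₁ * Λ.ω₂).im| : ℝ) : ℂ) *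
          (((if u = 2 then 2 else 1) * 2 ^ S.card : ℕ) : ℂ)) := by
        unfold anOrder period
        rw [Pool.Agent.Y715.Z.sqrt_discr e, htor', hcp]
        push_cast
        rfl
      rw [h11, mat_eq hS]
      exact h10
  -- the converse
  have hconv : NoSelmer (curve e u D) → (mat S).det ≠ 0 := by
    rintro ⟨h1, h2⟩ h3
    rw [mat_eq hS] at h3
    exact hCNV h3 h1 h2
  have hmain : (mat S).det ≠ 0 → NoSelmer (curve e u D) ∧ TwoPart (curve e u D) := by
    intro hdet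
    have hT : Pool.Agent.Y682.IsT (curve e u D) 0 (em0 e (u * D)) :=
      { h1 := rfl, h2 := rfl, h3 := rfl, h4 := rfl, h6 := rfl, hB := hB0
        hD := by
          rw [zero_pow two_ne_zero, zero_sub, neg_ne_zero]
          exact mul_ne_zero (by norm_num) hB0 }
    have hker := Pool.Agent.Y697.PP.ker_of_det gA gθ (S := S) (by rw [← mat_eq hS]; exact hdet)
    obtain ⟨hr, hsha⟩ := hSHA hker _ hT
    have hper2 : ∀ σ : K →+* ℂ, (∃ Λ : PeriodPair, IsPeriodLattice (curve e u D) σ Λ) ∧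
        ∀ Λ : PeriodPair, IsPeriodLattice (curve e u D) σ Λ →
          ∀ (Γ : Type) [LinearOrderedCommGroupWithZero Γ] (w : Valuation ℂ Γ), w 2 < 1 →
            w (anOrder (curve e u D) (L 1) Λ c) = 1 := fun σ =>
      ⟨(hper σ).1, fun Λ hΛ Γ _ w hw => ((hper σ).2 Λ hΛ Γ w hw).2.2 hdet⟩
    have hL10 : L 1 ≠ 0 := by
      intro h0
      obtain ⟨B, hB⟩ := Pool.Agent.Y697.MQ.exists_val
      obtain ⟨σ⟩ : Nonempty (K →+* ℂ) := inferInstance
      obtain ⟨⟨Λ, hΛ⟩, h2⟩ := hper2 σ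
      have h3 := h2 Λ hΛ _ B.valuation hB
      unfold anOrder at h3
      rw [h0, zero_mul, zero_mul, zero_div, map_zero] at h3
      exact zero_ne_one h3
    have hfin : Finite (curve e u D).toAffine.Point := by
      have hfg : Module.Finite ℤ (Pool.Agent.Y682.MP (curve e u D)) := Pool.Agent.Y682.fg_MP hT
      have htors := Module.finrank_eq_zero_iff_isTorsion.1 hr
      exact Module.finite_of_fg_torsion (Pool.Agent.Y682.MP (curve e u D)) htors
    have hpow : ∀ (n : ℕ) (x : Sha (curve e u D)), 2 ^ n • x = 0 → x = 0 := by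
      intro n
      induction n with
      | zero => intro x hx; rwa [pow_zero, one_smul] at hx
      | succ n ih =>
        intro x hx
        apply hsha
        apply ih
        rw [← mul_smul, ← pow_succ]
        exact hx
    exact ⟨⟨hfin, hsha⟩, hfin, hpow, L, c, hIsL, hL10, hTam, hper2⟩
  have hiff : NoSelmer (curve e u D) ↔ (mat S).det ≠ 0 := ⟨hconv, fun h => (hmain h).1⟩
  exact ⟨⟨L, c, hIsL, hTam, hcp, ⟨t, ht, htor'⟩, fun σ => ⟨(hper σ).1, fun Λ hΛ Γ _ w hw =>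
    ⟨((hper σ).2 Λ hΛ Γ w hw).1, ((hper σ).2 Λ hΛ Γ w hw).2.trans hiff.symm⟩⟩⟩, hiff,
    fun h => (hmain h).2⟩

lemma prod_norm_odd {S : Finset GaussianInt} (hS : ∀ l ∈ S, OP l) :
    (∏ l ∈ S, l : GaussianInt).norm % 2 = 1 := Pool.Agent.H304R2.EC.A1.prim_norm_odd
  ((Pool.Agent.Y697.MQ.prim_iff_Pr _).2 (Pool.Agent.Y697.MQ.Pr_prod fun x hx => (hS x hx).pm))

lemma LG_val {X : GaussianInt →* ℂ} {M : ℂ}
    (h : Pool.Agent.H304R3.HK.LH X (1 / 2) = (starRingEnd ℂ) M) :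
    Pool.Agent.Y699.LG X 1 = M * (starRingEnd ℂ) M := by
  unfold Pool.Agent.Y699.LG
  have e1 : (1 : ℂ) - 1 / 2 = 1 / 2 := by norm_num
  rw [map_one, e1, h, Complex.conj_conj, mul_comm]

/-- The case `u = 2`. -/
theorem crit_two (hLK : S_LK) (hLKm : S_LKm) (hVAL : S_VAL) (hVALm : S_VALm) (hPRD : S_PRD)
    (hM0 : S_M0) (hHCK : S_HCK) (hHCKm : S_HCKm) (hLHE : S_LHE) (hLHEm : S_LHEm) (hCHE : S_CHE)
    (hMIN : S_MINK) (hTAM : S_TAMK) (hTAP : S_TAMP) (hTOR : S_TORK) (hSHA : S_SHAK) (hCNV : S_CNVK)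
    (hLS : S_LSK) (hVZ : S_VALZ)
    {K : Type} [Field K] [NumberField K] (e : GaussianInt ≃+* 𝓞 K)
    {S : Finset GaussianInt} (hS : ∀ l ∈ S, OP l) : Criterion e 2 S := by
  classical
  obtain ⟨q, X, L', Ω, m, M, hHC, hX1, hX2, hX3, hG, hm4, hLH, hval⟩ :=
    exists_X hLK hLKm hVAL hVALm hPRD hM0 hHCK hHCKm hLHE hLHEm hCHE hS
  obtain ⟨t, ht, htor⟩ := hTOR K e S hS
  obtain ⟨hcf, hcp⟩ := hTAP K e S hS
  refine crit_gen e hS (by decide) (hMIN K e S hS) (hTAM K e S hS) hcf (by rw [hcp, if_pos rfl]) ht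
    ?_ ⟨Pool.Agent.Y699.LG_diff hHC, fun s hs => hLS K e S hS q X hHC hX1 hX2 hX3 s hs⟩ ?_
    (hSHA K e S hS) (hCNV K e S hS)
  · rw [← htor]
    unfold torsOrder
    congr!
  · intro σ Λ h4 h6 Γ _ w hw
    have hδ : ‖σ (em0 e (2 * ∏ p ∈ S, p))‖ = 2 * ‖Pool.Agent.H304R3.HK.tc (∏ p ∈ S, p)‖ := by
      rw [Pool.Agent.Y715.Z.norm_emb e σ (2 * ∏ p ∈ S, p), Pool.Agent.W164.RC.tc_mul, norm_mul]
      congr 1
      have : Pool.Agent.H304R3.HK.tc (2 : GaussianInt) = 2 := by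
        rw [show (2 : GaussianInt) = 1 + 1 by decide, Pool.Agent.Y699.tc_add, Pool.Agent.Y699.tc_one]
        norm_num
      rw [this]
      simp
    rw [LG_val hLH, if_pos rfl]
    exact hVZ Γ w hw L' Ω hG m hm4 S.card M ((Mt gA gθ S).det ≠ 0) (hval Γ) _ (prod_norm_odd hS) _ hδ
      Λ h4 h6 t ht

/-- The case `u = i`. -/
theorem crit_i (hLKI : S_LKI) (hVALI : S_VALI) (hBSI : S_BSI) (hHCT : S_HCT) (hLHT : S_LHT)
    (hCHI : S_CHI) (hMINI : S_MINI) (hTAMI : S_TAMI) (hTAPI : S_TAPI) (hTORI : S_TORI)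
    (hSHAI : S_SHAI) (hCNVI : S_CNVI) (hLSI : S_LSI) (hVZI : S_VALZI)
    {K : Type} [Field K] [NumberField K] (e : GaussianInt ≃+* 𝓞 K)
    {S : Finset GaussianInt} (hS : ∀ l ∈ S, OP l) : Criterion e ⟨0, 1⟩ S := by
  classical
  obtain ⟨q, X, L', Ω, m, M, hHC, hX1, hX2, hX3, hG, hm4, hLH, hval⟩ :=
    exists_XI hLKI hVALI hBSI hHCT hLHT hCHI hS
  obtain ⟨t, ht, htor⟩ := hTORI K e S hS
  obtain ⟨hcf, hcp⟩ := hTAPI K e S hS
  have h2 : (⟨0, 1⟩ : GaussianInt) ≠ 2 := by decide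
  refine crit_gen e hS (by decide) (hMINI K e S hS) (hTAMI K e S hS) hcf
    (by rw [hcp, if_neg h2, one_mul]) ht
    ?_ ⟨Pool.Agent.Y699.LG_diff hHC, fun s hs => hLSI K e S hS q X hHC hX1 hX2 hX3 s hs⟩ ?_
    (hSHAI K e S hS) (hCNVI K e S hS)
  · rw [← htor]
    unfold torsOrder
    congr!
  · intro σ Λ h4 h6 Γ _ w hw
    have hδ : ‖σ (em0 e (⟨0, 1⟩ * ∏ p ∈ S, p))‖ = ‖Pool.Agent.H304R3.HK.tc (∏ p ∈ S, p)‖ := by
      rw [Pool.Agent.Y715.Z.norm_emb e σ (⟨0, 1⟩ * ∏ p ∈ S, p), Pool.Agent.W164.RC.tc_mul, norm_mul,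
        Pool.Agent.Y699.unit_tc (by decide), one_mul]
    rw [LG_val hLH, if_neg h2, one_mul]
    exact hVZI Γ w hw L' Ω hG m hm4 S.card M ((Mt gA gθ S).det ≠ 0) (hval Γ) _ (prod_norm_odd hS) _ hδ
      Λ h4 h6 t ht

/-! ### complex conjugation -/

lemma star_dvd {a b : GaussianInt} : star a ∣ star b ↔ a ∣ b := by
  constructor
  · rintro ⟨c, hc⟩
    exact ⟨star c, by rw [← star_star b, hc, star_mul, star_star, mul_comm]⟩
  · rintro ⟨c, hc⟩
    exact ⟨star c, by rw [hc, star_mul, mul_comm]⟩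

lemma nonsq_star (a p : GaussianInt) : nonsq (star a) (star p) = nonsq a p := by
  unfold nonsq
  congr 1
  apply propext
  constructor
  · rintro ⟨b, hb⟩
    refine ⟨star b, ?_⟩
    rw [← star_dvd, star_sub, star_pow, star_star]
    exact hb
  · rintro ⟨b, hb⟩
    refine ⟨star b, ?_⟩
    rw [← star_pow, ← star_sub, star_dvd]
    exact hb

lemma nonsq_i (p : GaussianInt) : nonsq ⟨0, -1⟩ p = nonsq ⟨0, 1⟩ p := by
  unfold nonsq
  congr 1
  apply propext
  constructor
  · rintro ⟨b, hb⟩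
    refine ⟨⟨0, 1⟩ * b, ?_⟩
    have e1 : ((⟨0, 1⟩ : GaussianInt) * b) ^ 2 - ⟨0, 1⟩ = -(b ^ 2 - ⟨0, -1⟩) := by
      have e2 : (⟨0, 1⟩ : GaussianInt) ^ 2 = -1 := by decide
      have e3 : (⟨0, -1⟩ : GaussianInt) = -⟨0, 1⟩ := by decide
      rw [mul_pow, e2, e3]
      ring
    rw [e1, dvd_neg]
    exact hb
  · rintro ⟨b, hb⟩
    refine ⟨⟨0, 1⟩ * b, ?_⟩
    have e1 : ((⟨0, 1⟩ : GaussianInt) * b) ^ 2 - ⟨0, -1⟩ = -(b ^ 2 - ⟨0, 1⟩) := by
      have e2 : (⟨0, 1⟩ : GaussianInt) ^ 2 = -1 := by decide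
      have e3 : (⟨0, -1⟩ : GaussianInt) = -⟨0, 1⟩ := by decide
      rw [mul_pow, e2, e3]
      ring
    rw [e1, dvd_neg]
    exact hb

lemma primary_star {p : GaussianInt} (h : Primary p) : Primary (star p) := by
  unfold Primary at *
  have h1 : (⟨2, 2⟩ : GaussianInt) = ⟨0, 1⟩ * star ⟨2, 2⟩ := by decide
  have h2 : star (⟨2, 2⟩ : GaussianInt) ∣ star (p - 1) := star_dvd.2 h
  rw [star_sub, star_one] at h2
  rw [h1]
  obtain ⟨c, hc⟩ := h2
  refine ⟨⟨0, -1⟩ * c, ?_⟩
  rw [hc]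
  have : (⟨0, 1⟩ : GaussianInt) * ⟨0, -1⟩ = 1 := by decide
  calc star (⟨2, 2⟩ : GaussianInt) * c = (⟨0, 1⟩ * ⟨0, -1⟩) * (star (⟨2, 2⟩ : GaussianInt) * c) := by
        rw [this, one_mul]
    _ = _ := by ring

lemma prime_star {p : GaussianInt} (h : Prime p) : Prime (star p) := by
  have h1 := (MulEquiv.prime_iff (starRingAut : GaussianInt ≃+* GaussianInt).toMulEquiv (p := p)).2 h
  exact h1

lemma star_inj : Function.Injective (star : GaussianInt → GaussianInt) := star_injective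

/-- the conjugate set -/
noncomputable def cS (S : Finset GaussianInt) : Finset GaussianInt := by
  classical exact S.image star

lemma mem_cS {S : Finset GaussianInt} {p : GaussianInt} : p ∈ cS S ↔ star p ∈ S := by
  classical
  unfold cS
  rw [Finset.mem_image]
  constructor
  · rintro ⟨q, hq, rfl⟩
    rwa [star_star]
  · intro h
    exact ⟨star p, h, star_star p⟩

lemma card_cS (S : Finset GaussianInt) : (cS S).card = S.card := by
  classical
  unfold cS
  exact Finset.card_image_of_injective _ star_inj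

lemma prod_cS (S : Finset GaussianInt) : ∏ p ∈ cS S, p = star (∏ p ∈ S, p) := by
  classical
  unfold cS
  rw [Finset.prod_image fun a _ b _ h => star_inj h]
  exact (map_prod (starRingAut : GaussianInt ≃+* GaussianInt) (fun p => p) S).symm

lemma det_cS (S : Finset GaussianInt) : (mat (cS S)).det = (mat S).det := by
  classical
  let f : S ≃ cS S :=
    { toFun := fun p => ⟨star (p : GaussianInt), mem_cS.2 (by rw [star_star]; exact p.2)⟩
      invFun := fun p => ⟨star (p : GaussianInt), mem_cS.1 p.2⟩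
      left_inv := fun p => Subtype.ext (star_star _)
      right_inv := fun p => Subtype.ext (star_star _) }
  rw [← Matrix.det_submatrix_equiv_self f]
  congr 1
  ext p q
  rw [Matrix.submatrix_apply]
  unfold mat
  rw [Matrix.of_apply, Matrix.of_apply]
  have hf : ∀ x : S, ((f x : cS S) : GaussianInt) = star (x : GaussianInt) := fun _ => rfl
  have hi : nonsq ⟨0, 1⟩ (star (p : GaussianInt)) = nonsq ⟨0, 1⟩ (p : GaussianInt) := by
    rw [← nonsq_i, ← nonsq_star ⟨0, 1⟩ (p : GaussianInt)]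
    rfl
  by_cases h : q = p
  · rw [if_pos h, if_pos (by rw [h]), hf p, hi]
    congr 1
    refine Finset.sum_nbij' (fun r => star r) (fun r => star r) ?_ ?_ ?_ ?_ ?_
    · intro r hr
      rw [Finset.mem_erase] at hr ⊢
      refine ⟨fun h' => hr.1 ?_, mem_cS.1 hr.2⟩
      rw [← star_star r, h']
    · intro r hr
      rw [Finset.mem_erase] at hr ⊢
      refine ⟨fun h' => hr.1 (star_inj h'), mem_cS.2 (by rw [star_star]; exact hr.2)⟩
    · intro r _
      exact star_star r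
    · intro r _
      exact star_star r
    · intro r _
      rw [← nonsq_star (p : GaussianInt) (star r), star_star]
  · rw [if_neg h, if_neg (fun h' => h (f.injective h')), hf, hf, nonsq_star]

/-- The case `u = -i`. -/
theorem crit_mi {K : Type} [Field K] [NumberField K]
    (hI : ∀ (e : GaussianInt ≃+* 𝓞 K) {S : Finset GaussianInt}, (∀ l ∈ S, OP l) →
      Criterion e ⟨0, 1⟩ S) (e : GaussianInt ≃+* 𝓞 K)
    {S : Finset GaussianInt} (hS : ∀ l ∈ S, OP l) : Criterion e ⟨0, -1⟩ S := by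
  classical
  have h1 : ∀ l ∈ cS S, OP l := by
    intro l hl
    have h2 := hS _ (mem_cS.1 hl)
    rw [← op_iff] at h2 ⊢
    refine ⟨?_, ?_⟩
    · have := prime_star h2.1
      rwa [star_star] at this
    · have := primary_star h2.2
      rwa [star_star] at this
  have h2 := hI ((starRingAut : GaussianInt ≃+* GaussianInt).trans e) h1
  unfold Criterion at h2 ⊢
  have hc : curve ((starRingAut : GaussianInt ≃+* GaussianInt).trans e) ⟨0, 1⟩ (∏ p ∈ cS S, p) =
      curve e ⟨0, -1⟩ (∏ p ∈ S, p) := by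
    unfold curve
    have e1 : ((starRingAut : GaussianInt ≃+* GaussianInt).trans e)
        (⟨0, 1⟩ * ∏ p ∈ cS S, p) = e (⟨0, -1⟩ * ∏ p ∈ S, p) := by
      rw [RingEquiv.trans_apply, prod_cS]
      congr 1
      show star ((⟨0, 1⟩ : GaussianInt) * star (∏ p ∈ S, p)) = _
      rw [star_mul, star_star, mul_comm]
      rfl
    rw [e1]
  rw [hc, det_cS, card_cS] at h2
  have h3 : (⟨0, 1⟩ : GaussianInt) ≠ 2 := by decide
  have h4 : (⟨0, -1⟩ : GaussianInt) ≠ 2 := by decide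
  rw [if_neg h3] at h2
  rw [if_neg h4]
  exact h2

/-- The criterion. -/
theorem criterion (hLK : S_LK) (hLKm : S_LKm) (hVAL : S_VAL) (hVALm : S_VALm) (hPRD : S_PRD)
    (hM0 : S_M0) (hHCK : S_HCK) (hHCKm : S_HCKm) (hLHE : S_LHE) (hLHEm : S_LHEm) (hCHE : S_CHE)
    (hMIN : S_MINK) (hTAM : S_TAMK) (hTAP : S_TAMP) (hTOR : S_TORK) (hSHA : S_SHAK) (hCNV : S_CNVK)
    (hLS : S_LSK) (hVZ : S_VALZ)
    (hLKI : S_LKI) (hVALI : S_VALI) (hBSI : S_BSI) (hHCT : S_HCT) (hLHT : S_LHT)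
    (hCHI : S_CHI) (hMINI : S_MINI) (hTAMI : S_TAMI) (hTAPI : S_TAPI) (hTORI : S_TORI)
    (hSHAI : S_SHAI) (hCNVI : S_CNVI) (hLSI : S_LSI) (hVZI : S_VALZI)
    {K : Type} [Field K] [NumberField K] (e : GaussianInt ≃+* 𝓞 K) {u : GaussianInt} (hu : Coef u)
    {S : Finset GaussianInt} (hS : ∀ l ∈ S, OP l) : Criterion e u S := by
  have hI : ∀ (e : GaussianInt ≃+* 𝓞 K) {S : Finset GaussianInt}, (∀ l ∈ S, OP l) →
      Criterion e ⟨0, 1⟩ S := fun e {S} hS => crit_i hLKI hVALI hBSI hHCT hLHT hCHI hMINI hTAMI hTAPI hTORI hSHAI hCNVI hLSI hVZI e hS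
  rcases hu with rfl | rfl | rfl
  · exact crit_two hLK hLKm hVAL hVALm hPRD hM0 hHCK hHCKm hLHE hLHEm hCHE hMIN hTAM hTAP hTOR hSHA hCNV hLS hVZ e hS
  · exact hI e hS
  · exact crit_mi hI e hS

/-- The criterion for `u = i` and `u = -i` (project QI). -/
theorem criterion_I (hLKI : S_LKI) (hVALI : S_VALI) (hBSI : S_BSI) (hHCT : S_HCT) (hLHT : S_LHT)
    (hCHI : S_CHI) (hMINI : S_MINI) (hTAMI : S_TAMI) (hTAPI : S_TAPI) (hTORI : S_TORI)
    (hSHAI : S_SHAI) (hCNVI : S_CNVI) (hLSI : S_LSI) (hVZI : S_VALZI)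
    {K : Type} [Field K] [NumberField K] (e : GaussianInt ≃+* 𝓞 K) {u : GaussianInt}
    (hu : u = ⟨0, 1⟩ ∨ u = ⟨0, -1⟩) {S : Finset GaussianInt} (hS : ∀ l ∈ S, OP l) :
    Criterion e u S := by
  have hI : ∀ (e : GaussianInt ≃+* 𝓞 K) {S : Finset GaussianInt}, (∀ l ∈ S, OP l) →
      Criterion e ⟨0, 1⟩ S := fun e {S} hS => crit_i hLKI hVALI hBSI hHCT hLHT hCHI hMINI hTAMI hTAPI hTORI hSHAI hCNVI hLSI hVZI e hS
  rcases hu with rfl | rfl
  · exact hI e hS
  · exact crit_mi hI e hS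

end proof

end Pool.Agent.E8helper75.QI.C
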